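import Pool.Agent.Y958.E.Stm

/-! # Project Y958-E: multiplicative functions near a Dirichlet character are nearly periodic -/

set_option autoImplicit false

namespace Pool.Agent.Y434.E.Apx

open Finset Pool.Agent.Y958.E

/-- the error terms -/
noncomputable def er (h : ℕ → ℂ) {q : ℕ} (χ : DirichletCharacter ℂ q) (p : ℕ) : ℝ :=
  ‖h p - χ ((p : ℕ) : ZMod q)‖

theorem er_nonneg (h : ℕ → ℂ) {q : ℕ} (χ : DirichletCharacter ℂ q) (p : ℕ) : 0 ≤ er h χ p :=
  norm_nonneg _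

theorem tele {q : ℕ} (χ : DirichletCharacter ℂ q) (h : ℕ → ℂ) (hh : BM h) (h1 : h 1 = 1) (m : ℕ) :
    1 ≤ m → ‖h m - χ ((m : ℕ) : ZMod q)‖ ≤
      ∑ p ∈ m.primeFactors, (er h χ p + if p ^ 2 ∣ m then 2 else 0) := by
  induction m using Nat.recOnPosPrimePosCoprime with
  | prime_pow p n hp hn =>
    intro _
    rw [Nat.primeFactors_prime_pow hn.ne' hp, Finset.sum_singleton]
    rcases Nat.lt_or_ge n 2 with h2 | h2
    · have : n = 1 := by omega
      subst this
      rw [pow_one]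
      have : (0 : ℝ) ≤ if p ^ 2 ∣ p then 2 else 0 := by split_ifs <;> norm_num
      unfold er
      linarith
    · rw [if_pos (pow_dvd_pow p h2)]
      have k1 := hh.1 (p ^ n)
      have k2 : ‖χ ((p ^ n : ℕ) : ZMod q)‖ ≤ 1 := DirichletCharacter.norm_le_one χ _
      have k3 := norm_sub_le (h (p ^ n)) (χ ((p ^ n : ℕ) : ZMod q))
      have k4 := er_nonneg h χ p
      linarith
  | zero => intro h; omega
  | one =>
    intro _
    rw [h1]
    simp
  | coprime a b ha hb hab iha ihb =>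
    intro _
    have ia := iha ha.le
    have ib := ihb hb.le
    rw [hh.2 a b ha.le hb.le hab, Nat.cast_mul, map_mul, hab.primeFactors_mul,
      Finset.sum_union hab.disjoint_primeFactors]
    have k1 : ‖h a * h b - χ ((a : ℕ) : ZMod q) * χ ((b : ℕ) : ZMod q)‖ ≤
        ‖h a - χ ((a : ℕ) : ZMod q)‖ + ‖h b - χ ((b : ℕ) : ZMod q)‖ := by
      have e : h a * h b - χ ((a : ℕ) : ZMod q) * χ ((b : ℕ) : ZMod q) =
          (h a - χ ((a : ℕ) : ZMod q)) * h b + χ ((a : ℕ) : ZMod q) * (h b - χ ((b : ℕ) : ZMod q)) := by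
        ring
      rw [e]
      refine (norm_add_le _ _).trans (add_le_add ?_ ?_)
      · rw [norm_mul]
        exact mul_le_of_le_one_right (norm_nonneg _) (hh.1 b)
      · rw [norm_mul]
        exact mul_le_of_le_one_left (norm_nonneg _) (DirichletCharacter.norm_le_one χ _)
    refine k1.trans (add_le_add (ia.trans ?_) (ib.trans ?_))
    · refine Finset.sum_le_sum fun p _ => ?_
      have : (if p ^ 2 ∣ a then (2 : ℝ) else 0) ≤ if p ^ 2 ∣ a * b then 2 else 0 := by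
        by_cases h : p ^ 2 ∣ a
        · rw [if_pos h, if_pos (Dvd.dvd.mul_right h _)]
        · rw [if_neg h]; split_ifs <;> norm_num
      linarith
    · refine Finset.sum_le_sum fun p _ => ?_
      have : (if p ^ 2 ∣ b then (2 : ℝ) else 0) ≤ if p ^ 2 ∣ a * b then 2 else 0 := by
        by_cases h : p ^ 2 ∣ b
        · rw [if_pos h, if_pos (Dvd.dvd.mul_left h _)]
        · rw [if_neg h]; split_ifs <;> norm_num
      linarith

/-- the modulus -/
def MM (Y J : ℕ) : ℕ := ∏ p ∈ (Icc 1 Y).filter Nat.Prime, p ^ J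

theorem MM_pos (Y J : ℕ) : 0 < MM Y J :=
  Finset.prod_pos fun p hp => pow_pos (Finset.mem_filter.1 hp).2.pos _

theorem dvd_MM {Y J p : ℕ} (hp : p.Prime) (hY : p ≤ Y) : p ^ J ∣ MM Y J :=
  Finset.dvd_prod_of_mem (fun p => p ^ J)
    (Finset.mem_filter.2 ⟨Finset.mem_Icc.2 ⟨hp.one_le, hY⟩, hp⟩)

theorem le_of_dvd_MM {Y J p : ℕ} (hp : p.Prime) (h : p ∣ MM Y J) : p ≤ Y := by
  obtain ⟨r, hr, h2⟩ := (Nat.Prime.prime hp).exists_mem_finset_dvd h
  have h3 := (Finset.mem_filter.1 hr)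
  have h4 : p ∣ r := hp.dvd_of_dvd_pow h2
  have h5 : p = r := (Nat.prime_dvd_prime_iff_eq hp h3.2).1 h4
  rw [h5]
  exact (Finset.mem_Icc.1 h3.1).2

theorem not_dvd {Y J n p : ℕ} (hn : 1 ≤ n) (hp : p.Prime) (hY : p ≤ Y) (hJ : ¬ p ^ J ∣ n) :
    ¬ p ∣ n / n.gcd (MM Y J) := by
  intro h
  have hg : n.gcd (MM Y J) ∣ n := Nat.gcd_dvd_left _ _
  have hn0 : n ≠ 0 := by omega
  have k1 : n.factorization p < J := by
    by_contra hc
    push Not at hc
    exact hJ ((pow_dvd_pow p hc).trans (Nat.ordProj_dvd n p))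
  have k2 : p ^ n.factorization p ∣ n.gcd (MM Y J) :=
    Nat.dvd_gcd (Nat.ordProj_dvd n p) ((pow_dvd_pow p k1.le).trans (dvd_MM hp hY))
  have k3 : p ^ (n.factorization p + 1) ∣ n := by
    rw [pow_succ]
    calc p ^ n.factorization p * p ∣ n.gcd (MM Y J) * (n / n.gcd (MM Y J)) := mul_dvd_mul k2 h
      _ = n := Nat.mul_div_cancel' hg
  exact Nat.pow_succ_factorization_not_dvd hn0 hp k3

open Classical in
/-- the periodic approximation -/
noncomputable def ww (h : ℕ → ℂ) {q : ℕ} (χ : DirichletCharacter ℂ q) (Y J : ℕ) (n : ℕ) : ℂ :=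
  if ∃ p ∈ (Icc 1 Y).filter Nat.Prime, p ^ J ∣ n then 0
  else h (n.gcd (MM Y J)) * χ ((n / n.gcd (MM Y J) : ℕ) : ZMod q)

theorem ww_le (h : ℕ → ℂ) (hh : BM h) {q : ℕ} (χ : DirichletCharacter ℂ q) (Y J : ℕ) (n : ℕ) :
    ‖ww h χ Y J n‖ ≤ 1 := by
  unfold ww
  split_ifs
  · simp
  · rw [norm_mul]
    exact mul_le_one₀ (hh.1 _) (norm_nonneg _) (DirichletCharacter.norm_le_one χ _)

theorem ww_per (h : ℕ → ℂ) {q : ℕ} (χ : DirichletCharacter ℂ q) (Y J : ℕ) (n : ℕ) :
    ww h χ Y J (n + q * MM Y J) = ww h χ Y J n := by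
  unfold ww
  have e1 : (∃ p ∈ (Icc 1 Y).filter Nat.Prime, p ^ J ∣ n + q * MM Y J) ↔
      ∃ p ∈ (Icc 1 Y).filter Nat.Prime, p ^ J ∣ n := by
    refine exists_congr fun p => and_congr_right fun hp => ?_
    have h2 := Finset.mem_filter.1 hp
    have h3 : p ^ J ∣ q * MM Y J := Dvd.dvd.mul_left (dvd_MM h2.2 (Finset.mem_Icc.1 h2.1).2) _
    exact (Nat.dvd_add_left h3)
  have e2 : (n + q * MM Y J).gcd (MM Y J) = n.gcd (MM Y J) := by
    rw [Nat.gcd_add_mul_right_left]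
  have e3 : (n + q * MM Y J) / n.gcd (MM Y J) =
      n / n.gcd (MM Y J) + q * (MM Y J / n.gcd (MM Y J)) := by
    obtain ⟨k, hk⟩ := Nat.gcd_dvd_right n (MM Y J)
    have hg : 0 < n.gcd (MM Y J) := Nat.gcd_pos_of_pos_right _ (MM_pos _ _)
    generalize n.gcd (MM Y J) = g at hk hg ⊢
    rw [hk, Nat.mul_div_cancel_left _ hg, show n + q * (g * k) = n + g * (q * k) by ring,
      Nat.add_mul_div_left _ _ hg]
  have e4 : (((n + q * MM Y J) / n.gcd (MM Y J) : ℕ) : ZMod q) = ((n / n.gcd (MM Y J) : ℕ) : ZMod q) := by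
    rw [e3]
    push_cast
    rw [ZMod.natCast_self, zero_mul, add_zero]
  rw [e2, e4]
  by_cases h1 : ∃ p ∈ (Icc 1 Y).filter Nat.Prime, p ^ J ∣ n
  · rw [if_pos h1, if_pos (e1.2 h1)]
  · rw [if_neg h1, if_neg (fun h => h1 (e1.1 h))]

/-- the pointwise bound -/
theorem pt {q : ℕ} (χ : DirichletCharacter ℂ q) (h : ℕ → ℂ) (hh : BM h) (h1 : h 1 = 1) (Y J N n : ℕ)
    (hn : 1 ≤ n) (hN : n ≤ N) :
    ‖h n - ww h χ Y J n‖ ≤ ∑ p ∈ (Ioc Y N).filter Nat.Prime,
      ((if p ∣ n then er h χ p else 0) + if p ^ 2 ∣ n then 2 else 0) +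
      ∑ p ∈ (Icc 1 Y).filter Nat.Prime, if p ^ J ∣ n then 1 else 0 := by
  have hs1 : (0 : ℝ) ≤ ∑ p ∈ (Ioc Y N).filter Nat.Prime,
      ((if p ∣ n then er h χ p else 0) + if p ^ 2 ∣ n then 2 else 0) := by
    refine Finset.sum_nonneg fun p _ => ?_
    have := er_nonneg h χ p
    split_ifs <;> linarith
  have hs2 : (0 : ℝ) ≤ ∑ p ∈ (Icc 1 Y).filter Nat.Prime, if p ^ J ∣ n then 1 else 0 := by
    refine Finset.sum_nonneg fun p _ => ?_
    split_ifs <;> norm_num
  by_cases hex : ∃ p ∈ (Icc 1 Y).filter Nat.Prime, p ^ J ∣ n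
  · unfold ww
    rw [if_pos hex, sub_zero]
    obtain ⟨p, hp, hd⟩ := hex
    have k1 : (1 : ℝ) ≤ ∑ p ∈ (Icc 1 Y).filter Nat.Prime, if p ^ J ∣ n then 1 else 0 := by
      calc (1 : ℝ) = if p ^ J ∣ n then 1 else 0 := by rw [if_pos hd]
        _ ≤ _ := Finset.single_le_sum (f := fun p => if p ^ J ∣ n then (1 : ℝ) else 0)
          (fun r _ => by positivity) hp
    have k2 := hh.1 n
    linarith
  · have hY : ∀ p, p.Prime → p ≤ Y → ¬ p ^ J ∣ n := by
      intro p hp hpY hd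
      exact hex ⟨p, Finset.mem_filter.2 ⟨Finset.mem_Icc.2 ⟨hp.one_le, hpY⟩, hp⟩, hd⟩
    unfold ww
    rw [if_neg hex]
    obtain ⟨g, hg⟩ : ∃ g, g = n.gcd (MM Y J) := ⟨_, rfl⟩
    have hgn : g ∣ n := by rw [hg]; exact Nat.gcd_dvd_left _ _
    have hgM : g ∣ MM Y J := by rw [hg]; exact Nat.gcd_dvd_right _ _
    have hnd : ∀ p, p.Prime → p ≤ Y → ¬ p ∣ n / g := by
      intro p hp hpY
      rw [hg]
      exact not_dvd hn hp hpY (hY p hp hpY)
    rw [← hg]
    obtain ⟨m, hm⟩ := hgn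
    have hg0 : 0 < g := by
      rcases Nat.eq_zero_or_pos g with h | h
      · subst h; omega
      · exact h
    have hm0 : 1 ≤ m := by
      rcases Nat.eq_zero_or_pos m with h | h
      · subst h; omega
      · exact h
    have e1 : n / g = m := by rw [hm]; exact Nat.mul_div_cancel_left _ hg0
    rw [e1] at hnd ⊢
    have hcop : Nat.Coprime g m := by
      refine Nat.coprime_of_dvd fun p hp h2 h3 => ?_
      exact hnd p hp (le_of_dvd_MM hp (h2.trans hgM)) h3
    have e2 : h n = h g * h m := by rw [hm]; exact hh.2 g m hg0 hm0 hcop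
    rw [e2, ← mul_sub, norm_mul]
    have k1 : ‖h g‖ * ‖h m - χ ((m : ℕ) : ZMod q)‖ ≤ ‖h m - χ ((m : ℕ) : ZMod q)‖ :=
      mul_le_of_le_one_left (norm_nonneg _) (hh.1 g)
    have k2 := tele χ h hh h1 m hm0
    have hmn : m ∣ n := ⟨g, by rw [hm, mul_comm]⟩
    have k3 : ∑ p ∈ m.primeFactors, (er h χ p + if p ^ 2 ∣ m then 2 else 0) ≤
        ∑ p ∈ (Ioc Y N).filter Nat.Prime,
          ((if p ∣ n then er h χ p else 0) + if p ^ 2 ∣ n then 2 else 0) := by
      have hsub : m.primeFactors ⊆ (Ioc Y N).filter Nat.Prime := by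
        intro p hp
        have hp1 := Nat.prime_of_mem_primeFactors hp
        have hp2 := Nat.dvd_of_mem_primeFactors hp
        refine Finset.mem_filter.2 ⟨Finset.mem_Ioc.2 ⟨?_, ?_⟩, hp1⟩
        · by_contra hc
          push Not at hc
          exact hnd p hp1 hc hp2
        · exact (Nat.le_of_dvd (by omega) (hp2.trans hmn)).trans hN
      calc ∑ p ∈ m.primeFactors, (er h χ p + if p ^ 2 ∣ m then (2 : ℝ) else 0)
          ≤ ∑ p ∈ m.primeFactors, ((if p ∣ n then er h χ p else 0) + if p ^ 2 ∣ n then 2 else 0) := by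
            refine Finset.sum_le_sum fun p hp => ?_
            have hp2 := (Nat.dvd_of_mem_primeFactors hp).trans hmn
            rw [if_pos hp2]
            have : (if p ^ 2 ∣ m then (2 : ℝ) else 0) ≤ if p ^ 2 ∣ n then 2 else 0 := by
              by_cases h : p ^ 2 ∣ m
              · rw [if_pos h, if_pos (h.trans hmn)]
              · rw [if_neg h]; split_ifs <;> norm_num
            linarith
        _ ≤ _ := by
            refine Finset.sum_le_sum_of_subset_of_nonneg hsub fun p _ _ => ?_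
            have := er_nonneg h χ p
            split_ifs <;> linarith
    linarith

theorem cnt (N d : ℕ) (c : ℝ) (hc : 0 ≤ c) :
    ∑ n ∈ Ioc 0 N, (if d ∣ n then c else 0) ≤ N * (c / d) := by
  rw [← Finset.sum_filter, Finset.sum_const, Nat.Ioc_filter_dvd_card_eq_div, nsmul_eq_mul]
  have : ((N / d : ℕ) : ℝ) ≤ N / d := Nat.cast_div_le
  calc ((N / d : ℕ) : ℝ) * c ≤ (N / d) * c := mul_le_mul_of_nonneg_right this hc
    _ = N * (c / d) := by ring

theorem avg {q : ℕ} (χ : DirichletCharacter ℂ q) (h : ℕ → ℂ) (hh : BM h) (h1 : h 1 = 1) (Y J N : ℕ) :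
    ∑ n ∈ range N, ‖h n - ww h χ Y J n‖ ≤ 2 + N * (∑ p ∈ (Ioc Y N).filter Nat.Prime,
      (er h χ p / p + 2 * (1 / (p : ℝ) ^ 2)) + ∑ p ∈ (Icc 1 Y).filter Nat.Prime, (1 / (p : ℝ) ^ J)) := by
  have k1 : ∑ n ∈ range N, ‖h n - ww h χ Y J n‖ ≤
      ‖h 0 - ww h χ Y J 0‖ + ∑ n ∈ Ioc 0 N, ‖h n - ww h χ Y J n‖ := by
    have : range N ⊆ insert 0 (Ioc 0 N) := by
      intro n hn
      rw [Finset.mem_range] at hn
      rw [Finset.mem_insert, Finset.mem_Ioc]
      omega
    refine (Finset.sum_le_sum_of_subset_of_nonneg this fun _ _ _ => norm_nonneg _).trans ?_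
    rw [Finset.sum_insert (by simp)]
  have k2 : ‖h 0 - ww h χ Y J 0‖ ≤ 2 := by
    have a1 := hh.1 0
    have a2 := ww_le h hh χ Y J 0
    have a3 := norm_sub_le (h 0) (ww h χ Y J 0)
    linarith
  have k3 : ∑ n ∈ Ioc 0 N, ‖h n - ww h χ Y J n‖ ≤ ∑ n ∈ Ioc 0 N,
      (∑ p ∈ (Ioc Y N).filter Nat.Prime,
      ((if p ∣ n then er h χ p else 0) + if p ^ 2 ∣ n then 2 else 0) +
      ∑ p ∈ (Icc 1 Y).filter Nat.Prime, if p ^ J ∣ n then 1 else 0) := by
    refine Finset.sum_le_sum fun n hn => ?_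
    rw [Finset.mem_Ioc] at hn
    exact pt χ h hh h1 Y J N n hn.1 hn.2
  rw [Finset.sum_add_distrib, Finset.sum_comm, Finset.sum_comm (s := Ioc 0 N)
    (t := (Icc 1 Y).filter Nat.Prime)] at k3
  have k4 : ∑ p ∈ (Ioc Y N).filter Nat.Prime, ∑ n ∈ Ioc 0 N,
      ((if p ∣ n then er h χ p else 0) + if p ^ 2 ∣ n then (2 : ℝ) else 0) ≤
      ∑ p ∈ (Ioc Y N).filter Nat.Prime, N * (er h χ p / p + 2 * (1 / (p : ℝ) ^ 2)) := by
    refine Finset.sum_le_sum fun p _ => ?_
    rw [Finset.sum_add_distrib]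
    have a1 := cnt N p (er h χ p) (er_nonneg _ _ _)
    have a2 := cnt N (p ^ 2) 2 (by norm_num)
    push_cast at a2
    have : (N : ℝ) * (er h χ p / p + 2 * (1 / (p : ℝ) ^ 2)) = N * (er h χ p / p) + N * (2 / (p : ℝ) ^ 2) := by
      ring
    linarith
  have k5 : ∑ p ∈ (Icc 1 Y).filter Nat.Prime, ∑ n ∈ Ioc 0 N, (if p ^ J ∣ n then (1 : ℝ) else 0) ≤
      ∑ p ∈ (Icc 1 Y).filter Nat.Prime, (N * (1 / (p : ℝ) ^ J)) := by
    refine Finset.sum_le_sum fun p _ => ?_
    have a2 := cnt N (p ^ J) 1 (by norm_num)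
    push_cast at a2
    exact a2
  rw [← Finset.mul_sum] at k4 k5
  rw [mul_add]
  linarith

/-- APX -/
theorem apx : S_APX := by
  intro q hq χ h hh hsum ε hε
  by_cases h1 : h 1 = 1
  swap
  · -- `h` vanishes on the positive integers
    have h10 : h 1 = 0 := by
      have := hh.2 1 1 le_rfl le_rfl (Nat.coprime_one_left 1)
      rw [mul_one] at this
      have h2 : h 1 * (h 1 - 1) = 0 := by linear_combination -this
      rcases mul_eq_zero.1 h2 with h3 | h3
      · exact h3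
      · exact absurd (sub_eq_zero.1 h3) h1
    have hz : ∀ n, 1 ≤ n → h n = 0 := by
      intro n hn
      have := hh.2 n 1 hn le_rfl (Nat.coprime_one_right n)
      rw [mul_one, h10, mul_zero] at this
      exact this
    refine ⟨1, fun _ => 0, le_rfl, fun _ => by simp, fun _ => rfl, ⌈1 / ε⌉₊, fun N hN => ?_⟩
    have k1 : ∑ n ∈ range N, ‖h n - 0‖ ≤ ‖h 0‖ := by
      have : range N ⊆ insert 0 (Ioc 0 N) := by
        intro n hn
        rw [Finset.mem_range] at hn
        rw [Finset.mem_insert, Finset.mem_Ioc]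
        omega
      refine (Finset.sum_le_sum_of_subset_of_nonneg this fun _ _ _ => norm_nonneg _).trans ?_
      rw [Finset.sum_insert (by simp), sub_zero]
      have : ∑ n ∈ Ioc 0 N, ‖h n - 0‖ = 0 := by
        refine Finset.sum_eq_zero fun n hn => ?_
        rw [hz n (Finset.mem_Ioc.1 hn).1]
        simp
      rw [this, add_zero]
    have k2 := hh.1 0
    have k3 : 1 / ε ≤ N := (Nat.le_ceil _).trans (by exact_mod_cast hN)
    rw [div_le_iff₀ hε] at k3
    linarith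
  · -- the main case
    obtain ⟨s1, hs1⟩ := summable_iff_vanishing_norm.1 hsum (ε / 8) (by positivity)
    obtain ⟨s2, hs2⟩ := summable_iff_vanishing_norm.1
      (Real.summable_one_div_nat_pow.2 (by norm_num : 1 < 2)) (ε / 16) (by positivity)
    obtain ⟨Y, hY⟩ : ∃ Y : ℕ, (∀ p ∈ s1, (p : ℕ) ≤ Y) ∧ ∀ p ∈ s2, p ≤ Y := by
      refine ⟨max (s1.sup fun p => (p : ℕ)) (s2.sup id), fun p hp => ?_, fun p hp => ?_⟩
      · exact (Finset.le_sup (f := fun p : Nat.Primes => (p : ℕ)) hp).trans (le_max_left _ _)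
      · exact (Finset.le_sup (f := id) hp).trans (le_max_right _ _)
    obtain ⟨J, hJ⟩ : ∃ J : ℕ, (Y : ℝ) * (1 / 2) ^ J ≤ ε / 4 := by
      obtain ⟨J, hJ⟩ := exists_pow_lt_of_lt_one (show (0 : ℝ) < ε / 4 / (Y + 1) by positivity)
        (show (1 / 2 : ℝ) < 1 by norm_num)
      refine ⟨J, ?_⟩
      rw [lt_div_iff₀ (by positivity)] at hJ
      have : (0 : ℝ) ≤ (1 / 2) ^ J := by positivity
      nlinarith
    have b1 : ∀ N : ℕ, ∑ p ∈ (Ioc Y N).filter Nat.Prime, er h χ p / p ≤ ε / 8 := by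
      intro N
      have e : ∑ p ∈ ((Ioc Y N).filter Nat.Prime).subtype Nat.Prime,
          er h χ (p : ℕ) / ((p : ℕ) : ℝ) = ∑ p ∈ (Ioc Y N).filter Nat.Prime, er h χ p / p :=
        Finset.sum_subtype_of_mem (fun p => er h χ p / (p : ℝ)) fun p hp => (Finset.mem_filter.1 hp).2
      rw [← e]
      have hdj : Disjoint (α := Finset Nat.Primes)
          (((Ioc Y N).filter Nat.Prime).subtype Nat.Prime) s1 := by
        refine Finset.disjoint_left.2 fun p hp hp2 => ?_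
        have a1 := hY.1 p hp2
        have hp' : (p : ℕ) ∈ (Ioc Y N).filter Nat.Prime := Finset.mem_subtype.1 hp
        rw [Finset.mem_filter, Finset.mem_Ioc] at hp'
        omega
      have := hs1 (((Ioc Y N).filter Nat.Prime).subtype Nat.Prime) hdj
      exact (le_abs_self _).trans this.le
    have b2 : ∀ N : ℕ, ∑ p ∈ (Ioc Y N).filter Nat.Prime, (1 / (p : ℝ) ^ 2) ≤ ε / 16 := by
      intro N
      have := hs2 ((Ioc Y N).filter Nat.Prime) (by
        rw [Finset.disjoint_left]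
        intro p hp hp2
        have a1 := hY.2 p hp2
        rw [Finset.mem_filter, Finset.mem_Ioc] at hp
        omega)
      exact (le_abs_self _).trans this.le
    have b3 : ∑ p ∈ (Icc 1 Y).filter Nat.Prime, (1 / (p : ℝ) ^ J) ≤ ε / 4 := by
      refine le_trans ?_ hJ
      calc ∑ p ∈ (Icc 1 Y).filter Nat.Prime, (1 / (p : ℝ) ^ J)
          ≤ ∑ p ∈ (Icc 1 Y).filter Nat.Prime, (1 / 2 : ℝ) ^ J := by
            refine Finset.sum_le_sum fun p hp => ?_
            have hp2 : (2 : ℝ) ≤ p := by exact_mod_cast (Finset.mem_filter.1 hp).2.two_le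
            rw [one_div_pow]
            gcongr
        _ ≤ Y * (1 / 2) ^ J := by
            rw [Finset.sum_const, nsmul_eq_mul]
            refine mul_le_mul_of_nonneg_right ?_ (by positivity)
            have : ((Icc 1 Y).filter Nat.Prime).card ≤ Y := by
              refine (Finset.card_filter_le _ _).trans ?_
              simp
            exact_mod_cast this
    refine ⟨q * MM Y J, ww h χ Y J, Nat.mul_pos hq (MM_pos _ _), ww_le h hh χ Y J, ww_per h χ Y J,
      ⌈4 / ε⌉₊, fun N hN => ?_⟩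
    have k1 := avg χ h hh h1 Y J N
    have k3 : 4 / ε ≤ N := (Nat.le_ceil _).trans (by exact_mod_cast hN)
    rw [div_le_iff₀ hε] at k3
    have k4 : ∑ p ∈ (Ioc Y N).filter Nat.Prime, (er h χ p / p + 2 * (1 / (p : ℝ) ^ 2)) ≤ ε / 4 := by
      rw [Finset.sum_add_distrib, ← Finset.mul_sum]
      have := b1 N
      have := b2 N
      linarith
    have k5 : (N : ℝ) * (∑ p ∈ (Ioc Y N).filter Nat.Prime,
      (er h χ p / p + 2 * (1 / (p : ℝ) ^ 2)) + ∑ p ∈ (Icc 1 Y).filter Nat.Prime, (1 / (p : ℝ) ^ J)) ≤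
      N * (ε / 2) := mul_le_mul_of_nonneg_left (by linarith) (by positivity)
    linarith


end Pool.Agent.Y434.E.Apx
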