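import Pool.Agent.Y958.E.Stm3
import Pool.Agent.Y304.U.Avc

/-! # Project Y958-E: null sets for windows of scales -/

set_option autoImplicit false

namespace Pool.Agent.Y434.E.Nwi

open Finset Filter Pool.Agent.Y958.U Pool.Agent.Y958.E Pool.Agent.Y304.U

/-- the sum over a window -/
noncomputable def sW (y x : ℕ) (E : Set ℕ) : ℝ := ∑ n ∈ Ioc y x, ind E n / n

theorem sW_nonneg (y x : ℕ) (E : Set ℕ) : 0 ≤ sW y x E :=
  sum_nonneg fun n _ => div_nonneg (ind_nonneg E n) (Nat.cast_nonneg n)

theorem NW_iff (y x : ℕ → ℕ) (E : Set ℕ) : NW y x E ↔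
    Tendsto (fun m : ℕ => sW (y m) (x m) E / Real.log ((x m : ℝ) / y m)) atTop (nhds 0) := by
  unfold NW
  have e : (fun m : ℕ => sW (y m) (x m) E / Real.log ((x m : ℝ) / y m)) = fun m : ℕ =>
      (∑ n ∈ Ioc (y m) (x m), (open Classical in if n ∈ E then (1 : ℝ) / n else 0)) /
        Real.log ((x m : ℝ) / y m) := by
    funext m
    congr 1
    unfold sW ind
    refine sum_congr rfl fun n _ => ?_
    split_ifs <;> simp
  rw [e]

theorem ind_mono {E F : Set ℕ} (h : E ⊆ F) (n : ℕ) : ind E n ≤ ind F n := by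
  unfold ind
  by_cases hn : n ∈ E
  · rw [if_pos hn, if_pos (h hn)]
  · rw [if_neg hn]
    split_ifs <;> norm_num

theorem ind_union (E F : Set ℕ) (n : ℕ) : ind (E ∪ F) n ≤ ind E n + ind F n := by
  have h1 := ind_nonneg E n
  have h2 := ind_nonneg F n
  by_cases hn : n ∈ E
  · have : ind E n = 1 := by unfold ind; exact if_pos hn
    have := ind_le (E ∪ F) n
    linarith
  · by_cases hn' : n ∈ F
    · have : ind F n = 1 := by unfold ind; exact if_pos hn'
      have := ind_le (E ∪ F) n
      linarith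
    · have : ind (E ∪ F) n = 0 := by
        unfold ind
        exact if_neg (fun h => h.elim hn hn')
      linarith

theorem window_harm (y : ℕ) (hy : 1 ≤ y) (x : ℕ) (hx : y ≤ x) :
    ∑ M ∈ Ioc y x, (1 : ℝ) / M ≤ Real.log ((x : ℝ) / y) := by
  induction x, hx using Nat.le_induction with
  | base => simp
  | succ x hx ih =>
    have hx0 : (0 : ℝ) < x := by exact_mod_cast (by omega : 0 < x)
    have hy0 : (0 : ℝ) < y := by exact_mod_cast hy
    rw [Finset.sum_Ioc_succ_top hx]
    have e : ((x + 1 : ℕ) : ℝ) / y = (x : ℝ) / y * (((x : ℝ) + 1) / x) := by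
      push_cast
      field_simp
    rw [e, Real.log_mul (by positivity) (by positivity)]
    have h := Real.one_sub_inv_le_log_of_pos (show (0 : ℝ) < ((x : ℝ) + 1) / x by positivity)
    have e2 : 1 - (((x : ℝ) + 1) / x)⁻¹ = 1 / ((x : ℝ) + 1) := by
      field_simp
      ring
    rw [e2] at h
    push_cast
    linarith

/-- the restriction of a set to a window -/
def rs (E : Set ℕ) (y x : ℕ) : Set ℕ := {n | n ∈ E ∧ y < n ∧ n ≤ x}

theorem sE_rs (E : Set ℕ) (y x : ℕ) : sE (rs E y x) x = sW y x E := by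
  unfold sE sW
  have h1 : Ioc y x ⊆ Icc 1 x := by
    intro n hn
    rw [mem_Ioc] at hn
    rw [mem_Icc]
    omega
  rw [← sum_subset h1]
  · refine sum_congr rfl fun n hn => ?_
    rw [mem_Ioc] at hn
    congr 1
    unfold ind rs
    by_cases h : n ∈ E
    · rw [if_pos h, if_pos ⟨h, hn⟩]
    · rw [if_neg h, if_neg (fun h' => h h'.1)]
  · intro n _ hn
    rw [mem_Ioc] at hn
    have : ind (rs E y x) n = 0 := by
      unfold ind rs
      exact if_neg (fun h => hn h.2)
    rw [this, zero_div]

theorem FF_mono {E F : Set ℕ} (h : E ⊆ F) (i₀ i₁ M : ℕ) : FF E i₀ i₁ M ≤ FF F i₀ i₁ M := by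
  unfold FF
  refine sum_le_sum fun i _ => mul_le_mul_of_nonneg_left (sum_le_sum fun p _ => ?_) (by positivity)
  exact mul_le_mul_of_nonneg_left (ind_mono h _)
    (div_nonneg (Real.log_natCast_nonneg p) (by positivity))

theorem FF_rs_zero (E : Set ℕ) (y x i₀ i₁ M : ℕ) (hM : M ≤ y) : FF (rs E y x) i₀ i₁ M = 0 := by
  unfold FF
  refine sum_eq_zero fun i _ => ?_
  rw [sum_eq_zero, mul_zero]
  intro p _
  have : ind (rs E y x) (M / p) = 0 := by
    unfold ind rs
    refine if_neg ?_
    rintro ⟨-, h1, -⟩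
    have := Nat.div_le_self M p
    omega
  rw [this, mul_zero]

theorem nwi (h : Pool.Agent.Y958.U.S_PW) : S_NWI := by
  intro y x hy hyx
  have hL : Tendsto (fun m => Real.log ((x m : ℝ) / y m)) atTop atTop :=
    Real.tendsto_log_atTop.comp hyx
  have hL0 : ∀ᶠ m in atTop, 0 < Real.log ((x m : ℝ) / y m) := hL.eventually_gt_atTop 0
  refine ⟨?_, ?_, ?_, ?_⟩
  · intro E F hEF hF
    rw [NW_iff] at hF ⊢
    refine squeeze_zero' ?_ ?_ hF
    · filter_upwards [hL0] with m hm
      exact div_nonneg (sW_nonneg _ _ _) hm.le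
    · filter_upwards [hL0] with m hm
      refine div_le_div_of_nonneg_right ?_ hm.le
      exact sum_le_sum fun n _ => div_le_div_of_nonneg_right (ind_mono hEF n) (Nat.cast_nonneg n)
  · intro E F hE hF
    rw [NW_iff] at hE hF ⊢
    have h2 := hE.add hF
    rw [add_zero] at h2
    refine squeeze_zero' ?_ ?_ h2
    · filter_upwards [hL0] with m hm
      exact div_nonneg (sW_nonneg _ _ _) hm.le
    · filter_upwards [hL0] with m hm
      rw [← add_div]
      refine div_le_div_of_nonneg_right ?_ hm.le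
      unfold sW
      rw [← sum_add_distrib]
      refine sum_le_sum fun n _ => ?_
      rw [← add_div]
      exact div_le_div_of_nonneg_right (ind_union E F n) (Nat.cast_nonneg n)
  · intro E K hK
    rw [NW_iff]
    have h1 : Tendsto (fun m : ℕ => (∑ n ∈ range K, (1 : ℝ) / n) / Real.log ((x m : ℝ) / y m))
        atTop (nhds 0) := Tendsto.div_atTop tendsto_const_nhds hL
    refine squeeze_zero' ?_ ?_ h1
    · filter_upwards [hL0] with m hm
      exact div_nonneg (sW_nonneg _ _ _) hm.le
    · filter_upwards [hL0] with m hm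
      refine div_le_div_of_nonneg_right ?_ hm.le
      unfold sW
      calc ∑ n ∈ Ioc (y m) (x m), ind E n / (n : ℝ) =
            ∑ n ∈ (Ioc (y m) (x m)).filter (fun n => n < K), ind E n / (n : ℝ) := by
            refine (sum_filter_of_ne fun n _ hn => ?_).symm
            by_contra hc
            apply hn
            have : ind E n = 0 := by
              unfold ind
              exact if_neg (fun h => hc (hK n h))
            rw [this, zero_div]
        _ ≤ ∑ n ∈ (Ioc (y m) (x m)).filter (fun n => n < K), (1 : ℝ) / n :=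
            sum_le_sum fun n _ => div_le_div_of_nonneg_right (ind_le E n) (Nat.cast_nonneg n)
        _ ≤ _ := by
            refine sum_le_sum_of_subset_of_nonneg ?_ fun n _ _ => by positivity
            intro n hn
            rw [mem_filter] at hn
            exact mem_range.2 hn.2
  · intro E E' hE hE'
    rw [NW_iff] at hE hE'
    obtain ⟨I₀, hI1, hI⟩ := low h
    obtain ⟨δ, hδ, hfr⟩ : ∃ δ : ℝ, 0 < δ ∧
        ∃ᶠ m : ℕ in atTop, δ ≤ sW (y m) (x m) E / Real.log ((x m : ℝ) / y m) := by
      by_contra hcon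
      push Not at hcon
      apply hE
      rw [Metric.tendsto_nhds]
      intro ε hε
      filter_upwards [hcon ε hε, hL0] with m h2 h3
      rw [dist_zero_right, Real.norm_eq_abs, abs_of_nonneg]
      · exact h2
      · exact div_nonneg (sW_nonneg _ _ _) h3.le
    refine ⟨δ / 32, by positivity, I₀, fun i₀ i₁ h0 h01 M₀ => ?_⟩
    by_contra hcon
    push Not at hcon
    obtain ⟨S, hS⟩ : ∃ S : ℝ, S = ∑ i ∈ Ico i₀ i₁, (1 : ℝ) / i := ⟨_, rfl⟩
    have hS0 : 0 < S := by
      rw [hS]
      refine sum_pos (fun i hi => ?_) ⟨i₀, by rw [mem_Ico]; omega⟩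
      rw [mem_Ico] at hi
      have : (0 : ℝ) < i := by exact_mod_cast (by omega : 0 < i)
      positivity
    have hF : ∀ M, M₀ ≤ M → M ∉ E' → FF E i₀ i₁ M ≤ δ / 32 * S := fun M h1 h2 => by
      rw [hS]
      exact (hcon M h1 h2).le
    -- upper bound of the average
    have hup : ∀ m : ℕ, y m ≤ x m → ∑ M ∈ Icc 1 (x m), FF (rs E (y m) (x m)) i₀ i₁ M / M ≤
        3 * S * M₀ + δ / 32 * S * Real.log ((x m : ℝ) / y m) + 3 * S * sW (y m) (x m) E' := by
      intro m hm
      have e0 : ∑ M ∈ Icc 1 (x m), FF (rs E (y m) (x m)) i₀ i₁ M / (M : ℝ) =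
          ∑ M ∈ Ioc (y m) (x m), FF (rs E (y m) (x m)) i₀ i₁ M / (M : ℝ) := by
        symm
        refine sum_subset ?_ ?_
        · intro n hn
          rw [mem_Ioc] at hn
          rw [mem_Icc]
          omega
        · intro n hn hn2
          rw [mem_Icc] at hn
          rw [mem_Ioc] at hn2
          rw [FF_rs_zero _ _ _ _ _ _ (by omega), zero_div]
      rw [e0]
      have h1 : ∀ M ∈ Ioc (y m) (x m), FF (rs E (y m) (x m)) i₀ i₁ M / M ≤
          (if M < M₀ then 3 * S else 0) + δ / 32 * S * (1 / M) + 3 * S * (ind E' M / M) := by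
        intro M hM
        rw [mem_Ioc] at hM
        have hM1 : (1 : ℝ) ≤ M := by exact_mod_cast (by omega : 1 ≤ M)
        have hM0 : (0 : ℝ) < M := by linarith
        have hmono : FF (rs E (y m) (x m)) i₀ i₁ M ≤ FF E i₀ i₁ M :=
          FF_mono (fun n hn => hn.1) _ _ _
        have hF3 : FF E i₀ i₁ M ≤ 3 * S := by rw [hS]; exact FF_le E i₀ i₁ M
        have t1 : 0 ≤ δ / 32 * S * (1 / M) := by positivity
        have t2 : 0 ≤ 3 * S * (ind E' M / M) :=
          mul_nonneg (by positivity) (div_nonneg (ind_nonneg _ _) hM0.le)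
        have hle : FF (rs E (y m) (x m)) i₀ i₁ M / M ≤ FF E i₀ i₁ M / M :=
          div_le_div_of_nonneg_right hmono hM0.le
        refine hle.trans ?_
        by_cases hc1 : M < M₀
        · rw [if_pos hc1]
          have : FF E i₀ i₁ M / M ≤ 3 * S :=
            (div_le_self (FF_nonneg _ _ _ _) hM1).trans hF3
          linarith
        · rw [if_neg hc1, zero_add]
          by_cases hc2 : M ∈ E'
          · have e1 : ind E' M = 1 := by unfold ind; exact if_pos hc2
            rw [e1]
            have : FF E i₀ i₁ M / M ≤ 3 * S * (1 / M) := by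
              rw [mul_one_div]
              exact div_le_div_of_nonneg_right hF3 hM0.le
            linarith
          · have : FF E i₀ i₁ M / M ≤ δ / 32 * S * (1 / M) := by
              rw [mul_one_div]
              exact div_le_div_of_nonneg_right (hF M (not_lt.1 hc1) hc2) hM0.le
            linarith
      refine (sum_le_sum h1).trans ?_
      rw [sum_add_distrib, sum_add_distrib, ← mul_sum, ← mul_sum]
      have h2 : ∑ M ∈ Ioc (y m) (x m), (if M < M₀ then 3 * S else 0) ≤ 3 * S * M₀ := by
        rw [← sum_filter, sum_const, nsmul_eq_mul, mul_comm]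
        refine mul_le_mul_of_nonneg_left ?_ (by positivity)
        have : ((Ioc (y m) (x m)).filter (fun M => M < M₀)).card ≤ (range M₀).card := by
          refine card_le_card fun M hM => ?_
          rw [mem_filter] at hM
          exact mem_range.2 hM.2
        rw [card_range] at this
        exact_mod_cast this
      have h3 := mul_le_mul_of_nonneg_left (window_harm (y m) (hy m) (x m) hm)
        (show 0 ≤ δ / 32 * S by positivity)
      have h4 : ∑ M ∈ Ioc (y m) (x m), ind E' M / (M : ℝ) = sW (y m) (x m) E' := rfl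
      rw [h4]
      linarith
    -- small terms
    obtain ⟨c, hcdef⟩ : ∃ c : ℝ, c = 3 * M₀ + 1 / 8 * (2 * 2 ^ i₁ + 1) := ⟨_, rfl⟩
    have hc : Tendsto (fun m => c / Real.log ((x m : ℝ) / y m)) atTop (nhds 0) :=
      tendsto_const_nhds.div_atTop hL
    have ev1 := hc.eventually (gt_mem_nhds (show (0 : ℝ) < δ / 64 by positivity))
    have ev2 := hE'.eventually (gt_mem_nhds (show (0 : ℝ) < δ / 192 by positivity))
    have ev4 := hyx.eventually_ge_atTop ((2 : ℝ) ^ i₁)
    obtain ⟨m, hm1, hm2, hm3, hm4, hm5⟩ := (hfr.and_eventually (ev1.and (ev2.and (hL0.and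
      ev4)))).exists
    have hy0 : (0 : ℝ) < y m := by exact_mod_cast hy m
    have hy1 : (1 : ℝ) ≤ y m := by exact_mod_cast hy m
    rw [le_div_iff₀ hy0] at hm5
    have hx2 : (2 : ℝ) ^ i₁ ≤ x m := by
      have : (0 : ℝ) < 2 ^ i₁ := by positivity
      nlinarith
    have hx3 : 2 ^ i₁ ≤ x m := by exact_mod_cast hx2
    have hyx' : y m ≤ x m := by
      have h1 : (1 : ℝ) ≤ 2 ^ i₁ := one_le_pow₀ (by norm_num)
      have : (y m : ℝ) ≤ x m := by nlinarith
      exact_mod_cast this
    have k1 := FF_low (rs E (y m) (x m)) hI h0 hx3 (i₁ := i₁)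
    rw [← hS, sE_rs] at k1
    have k3 := k1.trans (hup m hyx')
    have k4 : 1 / 8 * (sW (y m) (x m) E - 2 * 2 ^ i₁ - 1) ≤
        3 * M₀ + δ / 32 * Real.log ((x m : ℝ) / y m) + 3 * sW (y m) (x m) E' := by
      have e1 : 1 / 8 * S * (sW (y m) (x m) E - 2 * 2 ^ i₁ - 1) =
          S * (1 / 8 * (sW (y m) (x m) E - 2 * 2 ^ i₁ - 1)) := by ring
      have e2 : 3 * S * M₀ + δ / 32 * S * Real.log ((x m : ℝ) / y m) +
          3 * S * sW (y m) (x m) E' =
          S * (3 * M₀ + δ / 32 * Real.log ((x m : ℝ) / y m) + 3 * sW (y m) (x m) E') := by ring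
      rw [e1, e2] at k3
      exact le_of_mul_le_mul_left k3 hS0
    rw [le_div_iff₀ hm4] at hm1
    rw [div_lt_iff₀ hm4] at hm2 hm3
    nlinarith

end Pool.Agent.Y434.E.Nwi

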